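import Pool.Agent.H81.LR.Step

/-! Splitting the large series sets (module M7 of think 2620). -/

set_option linter.unusedSectionVars false

open Module Submodule H15 H81.WK H81.LR

namespace H54.LR

variable {ι : Type*} [Fintype ι] {E : Type*} [AddCommGroup E] [Module ℝ E]
  [FiniteDimensional ℝ E] {w : ι → E}

/-- coloopless: nonempty subsets lose one. -/
theorem cc_lt_of_nonempty {C Y : Set ι} (hcol : ∀ e ∈ C, cc w (Cᶜ ∪ {e}) = 0) (hY : Y ⊆ C)
    (hne : Y.Nonempty) : cc w (Cᶜ ∪ Y) + 1 ≤ Y.ncard := by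
  classical
  obtain ⟨e, he⟩ := hne
  have h1 := cc_union_le (w := w) (Cᶜ ∪ {e}) (Y \ {e})
  have h2 : Cᶜ ∪ {e} ∪ (Y \ {e}) = Cᶜ ∪ Y := by
    rw [Set.union_assoc, Set.union_sdiff_cancel (Set.singleton_subset_iff.2 he)]
  rw [h2, hcol e (hY he)] at h1
  have h3 := Set.ncard_sdiff_singleton_add_one he (Set.toFinite _)
  omega

/-- subsets of series sets are series sets. -/
theorem ser_mono {C Z R : Set ι} (hR : R ⊆ Z) (hZ : Z.ncard ≤ cc w (Cᶜ ∪ Z) + 1) :
    R.ncard ≤ cc w (Cᶜ ∪ R) + 1 := by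
  classical
  have h1 := cc_union_le (w := w) (Cᶜ ∪ R) (Z \ R)
  have h2 : Cᶜ ∪ R ∪ (Z \ R) = Cᶜ ∪ Z := by
    rw [Set.union_assoc, Set.union_sdiff_cancel hR]
  rw [h2] at h1
  have h3 := Set.ncard_sdiff_add_ncard_of_subset hR (Set.toFinite _)
  omega

/-- the union of two series sets which meet is a series set. -/
theorem ser_union {C Y Z : Set ι} (hcol : ∀ e ∈ C, cc w (Cᶜ ∪ {e}) = 0) (hYC : Y ⊆ C)
    (hY : Y.ncard ≤ cc w (Cᶜ ∪ Y) + 1) (hZ : Z.ncard ≤ cc w (Cᶜ ∪ Z) + 1)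
    (hne : (Y ∩ Z).Nonempty) : (Y ∪ Z).ncard ≤ cc w (Cᶜ ∪ (Y ∪ Z)) + 1 := by
  classical
  have h1 := cc_super w (Cᶜ ∪ Y) (Cᶜ ∪ Z)
  have e1 : Cᶜ ∪ Y ∪ (Cᶜ ∪ Z) = Cᶜ ∪ (Y ∪ Z) := by
    ext i
    simp only [Set.mem_union]
    tauto
  have e2 : (Cᶜ ∪ Y) ∩ (Cᶜ ∪ Z) = Cᶜ ∪ (Y ∩ Z) := by
    rw [Set.union_inter_distrib_left]
  rw [e1, e2] at h1
  have h2 := cc_lt_of_nonempty hcol (Set.inter_subset_left.trans hYC) hne
  have h3 := Set.ncard_union_add_ncard_inter Y Z (Set.toFinite _) (Set.toFinite _)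
  omega

/-- one step. -/
theorem split_step {j κ f s Q L : ℕ} (hF : Fam w j κ f s) (hs : s ≤ κ + f) {C K H : Set ι}
    (hCH : Disjoint C H) (hKC : K ⊆ C ∪ H) (hH : 2 * H.ncard + 5 ≤ κ + f)
    (hcol : ∀ e ∈ C, cc w (Cᶜ ∪ {e}) = 0)
    (hM : 6 * (j + 1) * (Q + 1) ≤ (C \ K).ncard)
    (hL : ∀ Z, Z ⊆ C \ K → Z.ncard ≤ cc w (Cᶜ ∪ Z) + 1 → Z.ncard ≤ L ∨
      2 * Z.ncard ≤ (C \ K).ncard)
    (hbad : ∃ Z, Z ⊆ C \ K ∧ Z.ncard ≤ cc w (Cᶜ ∪ Z) + 1 ∧ (C \ K).ncard < 2 * Z.ncard) :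
    Q + 1 ≤ L ∧ ∃ g, g ∉ C ∧ g ∉ H ∧ (∀ e ∈ insert g C, cc w ((insert g C)ᶜ ∪ {e}) = 0) ∧
      ∀ Z, Z ⊆ insert g C \ K → Z.ncard ≤ cc w ((insert g C)ᶜ ∪ Z) + 1 →
        Z.ncard ≤ L - (Q + 1) ∨ 2 * Z.ncard ≤ (insert g C \ K).ncard := by
  classical
  have hP0 : 6 * (j + 1) * (Q + 1) = 2 * ((j + 1) * (3 * (Q + 1))) := by ring
  have hP1 : Q + 1 ≤ (j + 1) * (3 * (Q + 1)) := by
    have : 1 * (1 * (Q + 1)) ≤ (j + 1) * (3 * (Q + 1)) :=
      Nat.mul_le_mul (by omega) (Nat.mul_le_mul (by omega) le_rfl)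
    omega
  -- a largest series set
  obtain ⟨Z, ⟨hZC, hZs⟩, hZmax⟩ := Set.exists_max_image
    {Z : Set ι | Z ⊆ C \ K ∧ Z.ncard ≤ cc w (Cᶜ ∪ Z) + 1} Set.ncard (Set.toFinite _)
    (by obtain ⟨Z, h1, h2, _⟩ := hbad; exact ⟨Z, h1, h2⟩)
  have hZb : (C \ K).ncard < 2 * Z.ncard := by
    obtain ⟨Z1, h1, h2, h3⟩ := hbad
    have := hZmax Z1 ⟨h1, h2⟩
    omega
  have hZL : Z.ncard ≤ L := by
    rcases hL Z hZC hZs with h | h
    · exact h
    · omega
  have hZC' : Z ⊆ C := hZC.trans Set.sdiff_subset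
  obtain ⟨R, hRZ, hRc, hRd⟩ := exists_blocks (Z := Z) (r := j + 1) (m := 3 * (Q + 1))
    (by omega)
  have hCne : C.Nonempty := by
    have : 0 < Z.ncard := by omega
    exact ((Set.ncard_pos (Set.toFinite _)).1 this).mono hZC'
  have hCcard : κ + j + 1 ≤ C.ncard := by
    obtain ⟨e, he⟩ := hCne
    have h1 := cc_add w (Cᶜ ∪ {e})
    rw [hcol e he] at h1
    have h2 : finrank ℝ (sp w (Cᶜ ∪ {e})ᶜ) ≤ finrank ℝ (sp w C) := by
      refine Submodule.finrank_mono (sp_mono ?_)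
      rw [Set.compl_union, compl_compl]
      exact Set.inter_subset_left
    have h3 : finrank ℝ (sp w C) ≤ C.ncard := finrank_sp_le
    have h4 := hF.dim
    omega
  obtain ⟨g, hgC, hgH, hg⟩ := step hF hs hCH hH hCcard (m := 3 * (Q + 1)) (by omega) R
    (fun i => (hRZ i).trans hZC') (fun i => (hRc i).le)
    (fun i => by
      have := ser_mono (hRZ i) hZs
      have := hRc i
      omega)
  have hgK : g ∉ K := fun h => (hKC h).elim hgC hgH
  have hcompl : (insert g C)ᶜ ∪ {g} = Cᶜ := by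
    ext i
    simp only [Set.mem_union, Set.mem_compl_iff, Set.mem_insert_iff, Set.mem_singleton_iff]
    constructor
    · rintro (h | h)
      · exact fun h' => h (Or.inr h')
      · rw [h]; exact hgC
    · intro h
      by_cases h' : i = g
      · exact Or.inr h'
      · exact Or.inl (fun h2 => h2.elim h' h)
  have hsubc : (insert g C)ᶜ ⊆ Cᶜ := Set.compl_subset_compl.2 (Set.subset_insert _ _)
  have hcol1 : ∀ e ∈ insert g C, cc w ((insert g C)ᶜ ∪ {e}) = 0 := by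
    intro e he
    rcases he with he | he
    · subst he
      rw [hcompl]
      obtain ⟨e', he'⟩ := hCne
      have h1 := cc_mono (w := w) (Set.subset_union_left : Cᶜ ⊆ Cᶜ ∪ {e'})
      rw [hcol e' he'] at h1
      omega
    · have h1 := cc_mono (w := w) (Set.union_subset_union_left {e} hsubc)
      rw [hcol e he] at h1
      omega
  have hM1 : (insert g C \ K).ncard = (C \ K).ncard + 1 := by
    have h1 : insert g C \ K = insert g (C \ K) := by
      ext i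
      simp only [Set.mem_sdiff, Set.mem_insert_iff]
      constructor
      · rintro ⟨h1 | h1, h2⟩
        · exact Or.inl h1
        · exact Or.inr ⟨h1, h2⟩
      · rintro (h1 | ⟨h1, h2⟩)
        · exact ⟨Or.inl h1, h1 ▸ hgK⟩
        · exact ⟨Or.inr h1, h2⟩
    rw [h1, Set.ncard_insert_of_notMem (fun h => hgC h.1)]
  refine ⟨by omega, g, hgC, hgH, hcol1, fun Y hY hYs => ?_⟩
  rw [hM1]
  by_cases hgY : g ∈ Y
  · -- then `Y = {g}`
    right
    have e1 : (insert g C)ᶜ ∪ Y = Cᶜ ∪ (Y \ {g}) := by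
      conv_lhs => rw [← Set.union_sdiff_cancel (Set.singleton_subset_iff.2 hgY),
        ← Set.union_assoc, hcompl]
    have h3 := Set.ncard_sdiff_singleton_add_one hgY (Set.toFinite _)
    rw [e1] at hYs
    by_cases hne : (Y \ {g}).Nonempty
    · have hsub : Y \ {g} ⊆ C := by
        rintro i ⟨h1, h2⟩
        rcases (hY h1).1 with h4 | h4
        · exact (h2 h4).elim
        · exact h4
      have := cc_lt_of_nonempty hcol hsub hne
      omega
    · rw [Set.not_nonempty_iff_eq_empty] at hne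
      rw [hne, Set.ncard_empty] at h3
      omega
  · have hYC : Y ⊆ C \ K := by
      intro i hi
      rcases (hY hi).1 with h4 | h4
      · exact (hgY (h4 ▸ hi)).elim
      · exact ⟨h4, (hY hi).2⟩
    have hYC' : Y ⊆ C := hYC.trans Set.sdiff_subset
    have hYs' : Y.ncard ≤ cc w (Cᶜ ∪ Y) + 1 := by
      have := cc_mono (w := w) (Set.union_subset_union_left Y hsubc)
      omega
    by_cases hne : (Y ∩ Z).Nonempty
    · left
      have h1 := ser_union hcol hYC' hYs' hZs hne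
      have h2 := hZmax (Y ∪ Z) ⟨Set.union_subset hYC hZC, h1⟩
      have h3 : Y ⊆ Z := by
        have : Z = Y ∪ Z := Set.eq_of_subset_of_ncard_le Set.subset_union_right h2 (Set.toFinite _)
        rw [this]
        exact Set.subset_union_left
      -- every split block has a point outside `Y`
      have h4 : ∀ i ∈ {i | w g ∉ sp w (C \ R i)}, (R i \ Y).Nonempty := by
        intro i hi
        rw [Set.sdiff_nonempty]
        intro hsub
        have h5 := ser_mono hsub hYs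
        have h6 := cc_insert_compl hgC ((hRZ i).trans hZC') hi
        have h7 := hRc i
        have h8 : (R i).Nonempty := (Set.ncard_pos (Set.toFinite _)).1 (by omega)
        have h9 := cc_lt_of_nonempty hcol ((hRZ i).trans hZC') h8
        omega
      have : Nonempty ι := ⟨g⟩
      choose! z hz using h4
      have h5 : {i | w g ∉ sp w (C \ R i)}.ncard ≤ (Z \ Y).ncard := by
        refine Set.ncard_le_ncard_of_injOn z (fun i hi => ?_) (fun i hi i' hi' hii => ?_)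
          (Set.toFinite _)
        · have := hz i hi
          exact ⟨hRZ i this.1, this.2⟩
        · by_contra hne'
          have := hz i hi
          have h6 := hz i' hi'
          rw [← hii] at h6
          exact (Set.disjoint_left.1 (hRd i i' hne')) this.1 h6.1
      have h6 := Set.ncard_sdiff_add_ncard_of_subset h3 (Set.toFinite _)
      omega
    · right
      rw [Set.not_nonempty_iff_eq_empty, ← Set.disjoint_iff_inter_eq_empty] at hne
      have h1 := Set.ncard_union_eq hne (Set.toFinite _) (Set.toFinite _)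
      have h2 := Set.ncard_le_ncard (Set.union_subset hYC hZC) (Set.toFinite _)
      omega

/-- the induction. -/
theorem split_aux {j κ f s Q : ℕ} (hF : Fam w j κ f s) (hs : s ≤ κ + f) {K H : Set ι}
    (hH : 2 * H.ncard + 5 ≤ κ + f) (L : ℕ) : ∀ C : Set ι,
    Disjoint C H → K ⊆ C ∪ H → (∀ e ∈ C, cc w (Cᶜ ∪ {e}) = 0) →
    6 * (j + 1) * (Q + 1) ≤ (C \ K).ncard →
    (∀ Z, Z ⊆ C \ K → Z.ncard ≤ cc w (Cᶜ ∪ Z) + 1 → Z.ncard ≤ L ∨
      2 * Z.ncard ≤ (C \ K).ncard) →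
    ∃ C' : Set ι, ∃ t : ℕ, C ⊆ C' ∧ Disjoint C' H ∧ (∀ e ∈ C', cc w (C'ᶜ ∪ {e}) = 0) ∧
      (∀ Z, Z ⊆ C' \ K → Z.ncard ≤ cc w (C'ᶜ ∪ Z) + 1 → 2 * Z.ncard ≤ (C' \ K).ncard) ∧
      (Q + 1) * t ≤ L ∧ C'.ncard ≤ C.ncard + t := by
  classical
  induction L using Nat.strong_induction_on with
  | _ L ih =>
    intro C hCH hKC hcol hM hL
    by_cases hbad : ∃ Z, Z ⊆ C \ K ∧ Z.ncard ≤ cc w (Cᶜ ∪ Z) + 1 ∧ (C \ K).ncard < 2 * Z.ncard
    · obtain ⟨hQL, g, hgC, hgH, hcol1, hL1⟩ := split_step hF hs hCH hKC hH hcol hM hL hbad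
      have hgK : g ∉ K := fun h => (hKC h).elim hgC hgH
      have hM1 : (C \ K).ncard ≤ (insert g C \ K).ncard :=
        Set.ncard_le_ncard (Set.sdiff_subset_sdiff_left (Set.subset_insert _ _)) (Set.toFinite _)
      obtain ⟨C', t, h1, h2, h3, h4, h5, h6⟩ := ih (L - (Q + 1)) (by omega) (insert g C)
        (by
          rw [Set.disjoint_left]
          rintro i (hi | hi) hi'
          · exact hgH (hi ▸ hi')
          · exact (Set.disjoint_left.1 hCH) hi hi')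
        (hKC.trans (Set.union_subset_union_left _ (Set.subset_insert _ _))) hcol1
        (hM.trans hM1) hL1
      refine ⟨C', t + 1, (Set.subset_insert _ _).trans h1, h2, h3, h4, ?_, ?_⟩
      · rw [Nat.mul_add, Nat.mul_one]
        omega
      · rw [Set.ncard_insert_of_notMem hgC] at h6
        omega
    · push Not at hbad
      exact ⟨C, 0, le_rfl, hCH, hcol, fun Z h1 h2 => hbad Z h1 h2, by simp, by simp⟩

/-- **SPLIT**, section 8 of the note. -/
theorem split {j κ f s Q : ℕ} (hF : Fam w j κ f s) (_hj : 1 ≤ j) (hs : s ≤ κ + f) {C K H : Set ι}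
    (hCH : Disjoint C H) (hKC : K ⊆ C ∪ H) (hH : 2 * H.ncard + 5 ≤ κ + f)
    (hcol : ∀ e ∈ C, cc w (Cᶜ ∪ {e}) = 0) (_hQ : 1 ≤ Q)
    (hM : 6 * (j + 1) * (Q + 1) ≤ (C \ K).ncard) :
    ∃ C' : Set ι, ∃ t : ℕ, C ⊆ C' ∧ Disjoint C' H ∧ (∀ e ∈ C', cc w (C'ᶜ ∪ {e}) = 0) ∧
      (∀ Z, Z ⊆ C' \ K → Z.ncard ≤ cc w (C'ᶜ ∪ Z) + 1 → 2 * Z.ncard ≤ (C' \ K).ncard) ∧
      Q * t ≤ (C \ K).ncard ∧ C'.ncard ≤ C.ncard + t + 1 := by
  obtain ⟨C', t, h1, h2, h3, h4, h5, h6⟩ := split_aux hF hs hH (C \ K).ncard C hCH hKC hcol hM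
    (fun Z hZ _ => Or.inl (Set.ncard_le_ncard hZ (Set.toFinite _)))
  refine ⟨C', t, h1, h2, h3, h4, ?_, by omega⟩
  have : Q * t ≤ (Q + 1) * t := Nat.mul_le_mul (by omega) le_rfl
  omega

end H54.LR
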